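import Mathlib
import Pool.Agent.Helper274.CoverL

set_option autoImplicit false

open Classical

namespace Pool.Agent.Results.MP_d73134_co.NoCheapCover

/-- For every real `C`, the proportion of the `⌊√p⌋`-element subsets `A` of `ℤ/pℤ` for which some
`T` with at most `C ⌊√p⌋` elements satisfies `A + T = ℤ/pℤ` tends to `0` as `p → ∞`
(through all positive integers `p`, in particular through the primes). -/
theorem result (C ε : ℝ) (hε : 0 < ε) :
    ∃ N₀ : ℕ, ∀ (p : ℕ) [NeZero p], N₀ ≤ p →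
      (((Finset.powersetCard (Nat.sqrt p) (Finset.univ : Finset (ZMod p))).filter
          (fun A => ∃ T : Finset (ZMod p), (T.card : ℝ) ≤ C * (Nat.sqrt p : ℝ) ∧
            ∀ x : ZMod p, ∃ a ∈ A, ∃ t ∈ T, a + t = x)).card : ℝ) /
        ((Finset.powersetCard (Nat.sqrt p) (Finset.univ : Finset (ZMod p))).card : ℝ) < ε := by
  obtain ⟨N', hN'⟩ := Filter.eventually_atTop.mp
    (Pool.Agent.Helper274.Cover.coverable_card_le (⌈|C|⌉₊ + 1) (by omega) (ε / 2) (by linarith))
  refine ⟨N', fun p _ hp => ?_⟩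
  have h2 := hN' p hp (ZMod p) (ZMod.card p)
  have hp1 : 1 ≤ p := Nat.one_le_iff_ne_zero.mpr (NeZero.ne p)
  have hchoose : (0:ℝ) < (p.choose (Nat.sqrt p) : ℕ) := by
    exact_mod_cast Nat.choose_pos (Nat.sqrt_le_self p)
  rw [Finset.card_powersetCard, Finset.card_univ, ZMod.card, div_lt_iff₀ hchoose]
  have h3 : (((Finset.powersetCard (Nat.sqrt p) (Finset.univ : Finset (ZMod p))).filter
      (fun A => ∃ T : Finset (ZMod p), (T.card : ℝ) ≤ C * (Nat.sqrt p : ℝ) ∧
        ∀ x : ZMod p, ∃ a ∈ A, ∃ t ∈ T, a + t = x)).card : ℝ) ≤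
      ((Pool.Agent.Helper274.Cover.coverable (ZMod p) (⌈|C|⌉₊ + 1)).card : ℝ) := by
    norm_cast
    apply Finset.card_le_card
    intro A hA
    unfold Pool.Agent.Helper274.Cover.coverable
    simp only [Finset.mem_filter, Finset.mem_powersetCard, Finset.mem_univ, true_and,
      ZMod.card] at hA ⊢
    obtain ⟨hA1, T, hT, hcov⟩ := hA
    refine ⟨hA1.2, T, ?_, ?_⟩
    · have h4 : (T.card : ℝ) ≤ (((⌈|C|⌉₊ + 1) * Nat.sqrt p : ℕ) : ℝ) := by
        push_cast
        refine hT.trans ?_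
        apply mul_le_mul_of_nonneg_right _ (by positivity)
        have h5 := Nat.le_ceil |C|
        have h6 := le_abs_self C
        linarith
      exact_mod_cast h4
    · intro x
      obtain ⟨a, ha, t, ht, hat⟩ := hcov x
      exact ⟨t, ht, a, ha, by rw [add_comm]; exact hat⟩
  have h7 : ε / 2 * ((p.choose (Nat.sqrt p) : ℕ) : ℝ) < ε * ((p.choose (Nat.sqrt p) : ℕ) : ℝ) := by
    apply mul_lt_mul_of_pos_right _ hchoose
    linarith
  linarith

end Pool.Agent.Results.MP_d73134_co.NoCheapCover
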